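import Pool.Agent.BSE.Stmts5

/-!
# RD3: reduction to ridge eigenfunctions whose symmetrization vanishes
-/

open MeasureTheory Matrix Finset
open scoped ComplexConjugate

namespace Pool.Agent.BSE.H86

open Pool.Agent.Helper64_FR

variable {n : ℕ}

theorem bil_dg (u v : Fin n → ℂ) (c : Fin n → ℝ) :
    bil u v (dg c) = ∑ i, conj (v i) * u i * (c i : ℂ) := by
  unfold bil dg
  apply Finset.sum_congr rfl
  intro i _
  rw [Finset.sum_eq_single i]
  · rw [Matrix.diagonal_apply_eq]
    ring
  · intro j _ hj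
    rw [Matrix.diagonal_apply_ne _ (Ne.symm hj)]
    ring
  · intro h
    exact absurd (Finset.mem_univ i) h

theorem rd3 (wts : WTSStmt) (nd2 : ND2Stmt) (eg2 : EG2Stmt) (sp2 : SP2Stmt) : RD3Stmt := by
  intro n k hn ρ hρ w hw μ hμ x v hv hx
  obtain ⟨T, hT, hNS⟩ := hρ
  rcases wts n hn ρ w hw μ hμ x v hv hx with h | h
  · exact Or.inl h
  · right
    refine ⟨fun c => T v (fun s => dg (c s)), ?_, ?_, eg2 n k ρ T hT w x v hx, ?_⟩
    · obtain ⟨N, a, u, v', h1, h2⟩ := sp2 n k (T v) (hT.mem v)
      refine ⟨N, a, fun t s i => conj (v' t s i) * u t i, h1, fun c => ?_⟩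
      change T v (fun s => dg (c s)) = _
      rw [h2]
      apply Finset.sum_congr rfl
      intro t _
      congr 1
      apply Finset.prod_congr rfl
      intro s _
      rw [bil_dg]
    · by_contra hc
      push Not at hc
      exact hv (nd2 n k ρ T hT v h hc)
    · intro c
      exact hNS v (fun s => dg (c s))

end Pool.Agent.BSE.H86
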